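import Mathlib

/-!
A nonseparable Hilbert space has Lipschitz self-homeomorphisms, of distortion as close to one as
one likes, which are Gateaux differentiable at no point.
-/

set_option autoImplicit false

open Filter Topology
open scoped ENNReal InnerProductSpace

namespace Pool.Agent.Results.MP_714461_an.NowhereGateaux

/-- `X` is reflexive: the canonical map into the bidual is onto. -/
def Reflexive (X : Type) [NormedAddCommGroup X] [NormedSpace ℝ X] : Prop :=
  Function.Surjective (NormedSpace.inclusionInDoubleDual ℝ X)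

/-- `φ` is Gateaux differentiable at `x₀`: there is a bounded linear operator `T` such that
`(φ (x₀ + t h) - φ x₀) / t` tends to `T h` in norm as `t → 0`, `t ≠ 0`, for every `h`. -/
def GateauxDifferentiableAt {X Y : Type} [NormedAddCommGroup X] [NormedSpace ℝ X]
    [NormedAddCommGroup Y] [NormedSpace ℝ Y] (φ : X → Y) (x₀ : X) : Prop :=
  ∃ T : X →L[ℝ] Y, ∀ h : X,
    Tendsto (fun t : ℝ => t⁻¹ • (φ (x₀ + t • h) - φ x₀)) (𝓝[≠] 0) (𝓝 (T h))

/-- the kinked line map: `t` for `t ≥ 0`, `c t` for `t < 0`. -/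
noncomputable def kink (c : ℝ) (t : ℝ) : ℝ := if 0 ≤ t then t else c * t

lemma kink_zero (c : ℝ) : kink c 0 = 0 := by simp [kink]

lemma kink_bounds {c : ℝ} (hc : 1 ≤ c) (s t : ℝ) :
    |s - t| ≤ |kink c s - kink c t| ∧ |kink c s - kink c t| ≤ c * |s - t| := by
  unfold kink
  split_ifs with h1 h2 h2
  · constructor
    · exact le_rfl
    · nlinarith [abs_nonneg (s - t)]
  · push Not at h2
    rw [abs_of_nonneg (by linarith : (0:ℝ) ≤ s - t),
      abs_of_nonneg (by nlinarith : (0:ℝ) ≤ s - c * t)]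
    constructor <;> nlinarith
  · push Not at h1
    rw [abs_sub_comm s t, abs_sub_comm (c * s) t, abs_of_nonneg (by linarith : (0:ℝ) ≤ t - s),
      abs_of_nonneg (by nlinarith : (0:ℝ) ≤ t - c * s)]
    constructor <;> nlinarith
  · rw [← mul_sub, abs_mul, abs_of_nonneg (by linarith : (0:ℝ) ≤ c)]
    constructor
    · nlinarith [abs_nonneg (s - t)]
    · exact le_rfl

lemma kink_inv {c : ℝ} (hc : 0 < c) (t : ℝ) : kink c⁻¹ (kink c t) = t := by
  unfold kink
  by_cases h1 : 0 ≤ t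
  · rw [if_pos h1, if_pos h1]
  · rw [if_neg h1, if_neg]
    · field_simp
    · push Not at h1 ⊢
      exact mul_neg_of_pos_of_neg hc h1

/-- The Hilbert space `ℓ₂(ℝ)` (index set of cardinality continuum). -/
abbrev H : Type := lp (fun _ : ℝ => ℝ) 2

lemma two_pos' : 0 < (2 : ℝ≥0∞).toReal := by norm_num

lemma mem_of_le {f : ℝ → ℝ} (C : ℝ) (x : H) (hf : ∀ γ, |f γ| ≤ C * |x γ|) :
    Memℓp f 2 := by
  have h1 : Summable fun γ => ‖(C • x : H) γ‖ ^ (2 : ℝ≥0∞).toReal :=
    (lp.memℓp (C • x)).summable two_pos'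
  apply memℓp_gen
  refine Summable.of_nonneg_of_le (fun γ => by positivity) (fun γ => ?_) h1
  apply Real.rpow_le_rpow (norm_nonneg _) _ two_pos'.le
  rw [lp.coeFn_smul, Pi.smul_apply, smul_eq_mul, norm_mul, Real.norm_eq_abs, Real.norm_eq_abs,
    Real.norm_eq_abs]
  exact (hf γ).trans (mul_le_mul_of_nonneg_right (le_abs_self C) (abs_nonneg _))

lemma norm_le_of {f g : H} (h : ∀ γ, |f γ| ≤ |g γ|) : ‖f‖ ≤ ‖g‖ := by
  have h1 := lp.norm_rpow_eq_tsum two_pos' f
  have h2 := lp.norm_rpow_eq_tsum two_pos' g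
  have h3 : ‖f‖ ^ (2 : ℝ≥0∞).toReal ≤ ‖g‖ ^ (2 : ℝ≥0∞).toReal := by
    rw [h1, h2]
    exact Summable.tsum_le_tsum
      (fun γ => Real.rpow_le_rpow (norm_nonneg _) (h γ) two_pos'.le)
      ((lp.memℓp f).summable two_pos') ((lp.memℓp g).summable two_pos')
  exact (Real.rpow_le_rpow_iff (norm_nonneg _) (norm_nonneg _) two_pos').1 h3

lemma kink_abs {c : ℝ} (t : ℝ) : |kink c t| ≤ max 1 |c| * |t| := by
  unfold kink
  split_ifs with h
  · exact le_mul_of_one_le_left (abs_nonneg _) (le_max_left _ _)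
  · rw [abs_mul]
    exact mul_le_mul_of_nonneg_right (le_max_right _ _) (abs_nonneg _)

/-- the coordinatewise kinked map. -/
noncomputable def K (c : ℝ) (x : H) : H :=
  ⟨fun γ => kink c (x γ), mem_of_le (max 1 |c|) x (fun γ => kink_abs (x γ))⟩

lemma K_apply (c : ℝ) (x : H) (γ : ℝ) : K c x γ = kink c (x γ) := rfl

/-- the coordinatewise kinked map as a bijection. -/
noncomputable def φ (c : ℝ) (hc : 0 < c) : H ≃ H where
  toFun := K c
  invFun := K c⁻¹
  left_inv x := by
    apply lp.ext; funext γ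
    rw [K_apply, K_apply, kink_inv hc]
  right_inv x := by
    apply lp.ext; funext γ
    rw [K_apply, K_apply]
    have := kink_inv (inv_pos.2 hc) (x γ)
    rwa [inv_inv] at this

lemma φ_apply (c : ℝ) (hc : 0 < c) (x : H) (γ : ℝ) : φ c hc x γ = kink c (x γ) := rfl

lemma φ_bounds {c : ℝ} (hc : 1 ≤ c) (x y : H) :
    ‖x - y‖ ≤ ‖φ c (by linarith) x - φ c (by linarith) y‖ ∧
    ‖φ c (by linarith) x - φ c (by linarith) y‖ ≤ c * ‖x - y‖ := by
  constructor
  · apply norm_le_of
    intro γ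
    rw [lp.coeFn_sub, lp.coeFn_sub, Pi.sub_apply, Pi.sub_apply, φ_apply, φ_apply]
    exact (kink_bounds hc _ _).1
  · have h1 : ‖φ c (by linarith) x - φ c (by linarith) y‖ ≤ ‖c • (x - y)‖ := by
      apply norm_le_of
      intro γ
      rw [lp.coeFn_sub, lp.coeFn_smul, lp.coeFn_sub, Pi.sub_apply, Pi.smul_apply, Pi.sub_apply,
        φ_apply, φ_apply, smul_eq_mul, abs_mul, abs_of_nonneg (by linarith : (0:ℝ) ≤ c)]
      exact (kink_bounds hc _ _).2
    rwa [norm_smul, Real.norm_eq_abs, abs_of_nonneg (by linarith : (0:ℝ) ≤ c)] at h1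

/-- every vector has a zero coordinate. -/
lemma exists_zero (x : H) : ∃ γ : ℝ, x γ = 0 := by
  by_contra hcon
  push Not at hcon
  have hs : Summable fun γ => ‖x γ‖ ^ (2 : ℝ≥0∞).toReal := (lp.memℓp x).summable two_pos'
  have hc := hs.countable_support
  have : Function.support (fun γ => ‖x γ‖ ^ (2 : ℝ≥0∞).toReal) = Set.univ := by
    rw [Set.eq_univ_iff_forall]
    intro γ
    rw [Function.mem_support]
    exact (Real.rpow_pos_of_pos (norm_pos_iff.2 (hcon γ)) _).ne'
  rw [this] at hc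
  exact Set.not_countable_univ hc

lemma nowhere {c : ℝ} (hc : 1 < c) (x₀ : H) :
    ¬ GateauxDifferentiableAt (φ c (by linarith)) x₀ := by
  rintro ⟨T, hT⟩
  obtain ⟨γ, hγ⟩ := exists_zero x₀
  have h1 := hT (lp.single 2 γ (1 : ℝ))
  -- evaluate at the coordinate `γ`
  have heval : Continuous fun z : H => z γ := by
    have : LipschitzWith 1 fun z : H => z γ := by
      apply LipschitzWith.of_dist_le_mul
      intro a b
      rw [dist_eq_norm, dist_eq_norm, NNReal.coe_one, one_mul]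
      exact lp.norm_apply_le_norm (by norm_num) (a - b) γ
    exact this.continuous
  have h2 := (heval.tendsto _).comp h1
  have h3 : ∀ t : ℝ, ((fun z : H => z γ) ∘ fun t : ℝ =>
      t⁻¹ • (φ c (by linarith) (x₀ + t • lp.single 2 γ (1 : ℝ)) - φ c (by linarith) x₀)) t =
      t⁻¹ * kink c t := by
    intro t
    simp only [Function.comp]
    rw [lp.coeFn_smul, Pi.smul_apply, lp.coeFn_sub, Pi.sub_apply, φ_apply, φ_apply,
      lp.coeFn_add, Pi.add_apply, lp.coeFn_smul, Pi.smul_apply, lp.single_apply_self, hγ,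
      kink_zero]
    simp
  rw [funext h3] at h2
  have h4 : Tendsto (fun t : ℝ => t⁻¹ * kink c t) (𝓝[>] 0) (𝓝 (T (lp.single 2 γ (1:ℝ)) γ)) :=
    h2.mono_left (nhdsWithin_mono _ (fun t ht => ne_of_gt ht))
  have h5 : Tendsto (fun t : ℝ => t⁻¹ * kink c t) (𝓝[<] 0) (𝓝 (T (lp.single 2 γ (1:ℝ)) γ)) :=
    h2.mono_left (nhdsWithin_mono _ (fun t ht => ne_of_lt ht))
  have h6 : Tendsto (fun t : ℝ => t⁻¹ * kink c t) (𝓝[>] 0) (𝓝 1) := by
    refine tendsto_const_nhds.congr' ?_
    filter_upwards [self_mem_nhdsWithin] with t ht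
    have ht' : (0:ℝ) < t := ht
    unfold kink
    rw [if_pos ht'.le, inv_mul_cancel₀ ht'.ne']
  have h7 : Tendsto (fun t : ℝ => t⁻¹ * kink c t) (𝓝[<] 0) (𝓝 c) := by
    refine tendsto_const_nhds.congr' ?_
    filter_upwards [self_mem_nhdsWithin] with t ht
    have ht' : t < 0 := ht
    unfold kink
    rw [if_neg (not_le.2 ht'), mul_comm c t, ← mul_assoc, inv_mul_cancel₀ ht'.ne, one_mul]
  have e1 := tendsto_nhds_unique h4 h6
  have e2 := tendsto_nhds_unique h5 h7
  linarith [e1.symm.trans e2]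

lemma coord_le (z w : H) (γ : ℝ) : |z γ - w γ| ≤ ‖z - w‖ := by
  have h : ‖(z - w) γ‖ ≤ ‖z - w‖ := lp.norm_apply_le_norm two_ne_zero (z - w) γ
  rwa [lp.coeFn_sub, Pi.sub_apply, Real.norm_eq_abs] at h

/-- the unit vectors -/
noncomputable def e (γ : ℝ) : H := lp.single 2 γ (1 : ℝ)

lemma e_self (γ : ℝ) : e γ γ = 1 := lp.single_apply_self 2 γ 1

lemma e_ne {γ δ : ℝ} (h : γ ≠ δ) : e δ γ = 0 := lp.single_apply_ne 2 δ 1 h

lemma not_separable : ¬ TopologicalSpace.SeparableSpace H := by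
  intro hsep
  have hd : Set.PairwiseDisjoint (Set.univ : Set ℝ) (fun γ : ℝ => Metric.ball (e γ) (1 / 2)) := by
    intro γ _ δ _ hne
    rw [Function.onFun, Set.disjoint_left]
    intro z hz1 hz2
    rw [Metric.mem_ball, dist_eq_norm] at hz1 hz2
    have h1 := (coord_le z (e γ) γ).trans_lt hz1
    have h2 := (coord_le z (e δ) γ).trans_lt hz2
    rw [e_self, abs_lt] at h1
    rw [e_ne hne, abs_lt] at h2
    linarith [h1.1, h1.2, h2.1, h2.2]
  have hc := hd.countable_of_isOpen (fun _ _ => Metric.isOpen_ball)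
    (fun γ _ => ⟨_, Metric.mem_ball_self (by norm_num)⟩)
  exact Set.not_countable_univ hc

lemma reflexive_H : Reflexive H := by
  intro F
  let G : H →ₗ[ℝ] ℝ :=
    { toFun := fun x => F (innerSL ℝ x)
      map_add' := fun x y => by rw [map_add, map_add]
      map_smul' := fun c x => by
        rw [map_smulₛₗ, map_smul]; rfl }
  have hG : ∀ x, ‖G x‖ ≤ ‖F‖ * ‖x‖ := fun x => by
    have := F.le_opNorm (innerSL ℝ x)
    rwa [innerSL_apply_norm] at this
  let G' : StrongDual ℝ H := G.mkContinuous ‖F‖ hG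
  refine ⟨(InnerProductSpace.toDual ℝ H).symm G', ?_⟩
  ext f
  rw [NormedSpace.dual_def]
  set y := (InnerProductSpace.toDual ℝ H).symm G' with hy
  set z := (InnerProductSpace.toDual ℝ H).symm f with hz
  have h1 : f = innerSL ℝ z := by
    ext w
    rw [innerSL_apply_apply, hz, InnerProductSpace.toDual_symm_apply]
  have h2 : F f = G' z := by rw [h1]; rfl
  rw [h2]
  have h3 : G' z = ⟪y, z⟫_ℝ := by rw [hy, InnerProductSpace.toDual_symm_apply]
  rw [h3, h1, innerSL_apply_apply, real_inner_comm]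

/-- There is a nonseparable (reflexive, uniformly convex, hence superreflexive) Hilbert space `X`
such that for every `ε > 0` some bijection `φ` of `X` onto `X` with
`‖x - y‖ ≤ ‖φ x - φ y‖ ≤ (1 + ε) ‖x - y‖` for all `x, y` is Gateaux differentiable at no point. -/
theorem result :
    ∃ (X : Type) (_ : NormedAddCommGroup X) (_ : InnerProductSpace ℝ X),
      CompleteSpace X ∧ ¬ TopologicalSpace.SeparableSpace X ∧ Reflexive X ∧
      UniformConvexSpace X ∧
      ∀ ε : ℝ, 0 < ε → ∃ φ : X ≃ X,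
        (∀ x y : X, ‖x - y‖ ≤ ‖φ x - φ y‖ ∧ ‖φ x - φ y‖ ≤ (1 + ε) * ‖x - y‖) ∧
        ∀ x₀ : X, ¬ GateauxDifferentiableAt φ x₀ :=
  ⟨H, inferInstance, inferInstance, inferInstance, not_separable, reflexive_H, inferInstance,
    fun ε hε => ⟨φ (1 + ε) (by linarith), φ_bounds (by linarith), nowhere (by linarith)⟩⟩

end Pool.Agent.Results.MP_714461_an.NowhereGateaux
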